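import Pool.Agent.Q113.XU.Stm
import Pool.Agent.Q102.EM.W1

/-!
# Project XU (helper113), job W1D: the data of the zone `0.8 k < l < k`, by helper275

(the first part of the proof of `Pool.Agent.Q102.EM.w1`)
-/

set_option autoImplicit false

namespace Pool.Agent.Q275.XU

open Pool.Agent.Q54.EM Pool.Agent.Q113.XU Pool.Agent.Q102.EM Finset

theorem t_W1D : S_NMO → S_CS → S_THT → S_DEC → S_SMA → S_EEL → S_W1D := by
  intro hNMO hCS hTHT hDEC hSMA hEEL ι _ p x k r l hk hRC hOpt hl1 hl2 he3 hgap0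
  obtain ⟨hNum, hxl, -, hlam⟩ := hNMO ι p x k r l hk hRC hOpt
  obtain ⟨a0, a1, c1, c2, T0, T1, -, -, hr92⟩ := hCS k r hk hRC
  obtain ⟨hr, hkr, hrk⟩ := hRC
  have hkR : (6 : ℝ) ≤ k := by exact_mod_cast hk
  have hk0 : (0 : ℝ) < k := by linarith
  have l0 : 0 < l := hNum.l0
  have law := hOpt.law
  have p0 : ∀ i, 0 ≤ p i := fun i => (law.pos i).le
  have x0 := law.nn
  set a := r / (k : ℝ) with ha
  set t := 1 - l / (k : ℝ) with ht
  set e := l / hh k p x - 1 with he
  have hh0 : 0 < hh k p x := hNum.h0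
  have e0 : 0 ≤ e := by
    have h1 : 1 ≤ l / hh k p x := (one_le_div hh0).2 hNum.hl
    rw [he]; linarith
  have t0 : 0 < t := by
    rw [ht, sub_pos, div_lt_one hk0]; exact hl2
  have t2 : t ≤ 2 / 10 := by
    have : (8 : ℝ) / 10 ≤ l / k := by rw [le_div_iff₀ hk0]; linarith
    rw [ht]; linarith
  -- the means
  set b := a + 1 / 20 with hb
  have hgap : ∀ i, x i ≤ b * k ∨ (k : ℝ) / 2 < x i := by
    intro i
    rcases hgap0 i with h | h
    · left
      have : b * k = r + k / 20 := by rw [hb, ha]; field_simp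
      rw [this]; exact h
    · exact Or.inr h
  have b1 : b ≤ 20456 / 100000 := by linarith
  have b0 : 0 ≤ b := by linarith
  set ms := ∑ i, sw k p x i * x i with hms
  have sw0 : ∀ i, 0 ≤ sw k p x i := by
    intro i; unfold sw; split_ifs
    · exact p0 i
    · exact le_rfl
  have bw0 : ∀ i, 0 ≤ bw k p x i := by
    intro i; unfold bw; split_ifs
    · exact p0 i
    · exact le_rfl
  have ms0 : 0 ≤ ms := sum_nonneg fun i _ => mul_nonneg (sw0 i) (x0 i)
  have hmu1 : mu p x < 1 := by rw [hOpt.m]; exact hkr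
  have hlk : l / k = 1 - t := by rw [ht]; ring
  have hlt : l = (1 - t) * k := by rw [← hlk]; field_simp
  have hms1 : ms * (1 - t - b) * (1 + e) ≤ (1 - t - a) * (e + t) := by
    have h1 := w1_mean (k := k) l0 p0 x0 hxl hgap
    rw [← hTHT ι p x k l (by omega) law hmu1 hOpt.kk, hlam] at h1
    have hz : (1 - hh k p x / k) * (1 + e) = e + t := by
      have h3 : 1 + e = l / hh k p x := by rw [he]; ring
      have h4 : hh k p x / k * (l / hh k p x) = l / k := by field_simp
      rw [sub_mul, h3, h4, hlk, ← h3]; ring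
    have h5 : (1 - t) * (1 - b * k / l) = 1 - t - b := by
      have h6 : (1 - t) * (k / l) = 1 := by rw [← hlk]; field_simp
      calc (1 - t) * (1 - b * k / l) = 1 - t - b * ((1 - t) * (k / l)) := by ring
        _ = _ := by rw [h6]; ring
    have h7 : (1 - t) * (1 - r / l) = 1 - t - a := by
      have h8 : (1 - t) * (r / l) = a := by
        rw [← hlk, ha]; field_simp
      rw [mul_sub, h8]; ring
    have h9 : ms * (1 - t - b) ≤ (1 - t - a) * (1 - hh k p x / k) := by
      calc ms * (1 - t - b) = (1 - t) * (ms * (1 - b * k / l)) := by rw [← h5]; ring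
        _ ≤ (1 - t) * ((1 - r / l) * (1 - hh k p x / k)) :=
            mul_le_mul_of_nonneg_left h1 (by linarith)
        _ = (1 - t - a) * (1 - hh k p x / k) := by rw [← h7]; ring
    calc ms * (1 - t - b) * (1 + e) ≤ (1 - t - a) * (1 - hh k p x / k) * (1 + e) :=
          mul_le_mul_of_nonneg_right h9 (by linarith)
      _ = _ := by rw [mul_assoc, hz]
  have hms9 : ms < r := by
    by_contra hcon
    push Not at hcon
    have h1 : 92 / 100 ≤ ms := le_trans hr92 hcon
    have h2 : 92 / 100 * ((1 - t - b) * (1 + e)) ≤ ms * ((1 - t - b) * (1 + e)) :=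
      mul_le_mul_of_nonneg_right h1 (mul_nonneg (by linarith) (by linarith))
    have h3 : 92 / 100 * ((1 - t - b) * (1 + e)) ≤ (1 - t - a) * (e + t) := by
      calc _ ≤ ms * ((1 - t - b) * (1 + e)) := h2
        _ = ms * (1 - t - b) * (1 + e) := by ring
        _ ≤ _ := hms1
    have h4 : 0 < 92 / 100 * ((1 - t - b) * (1 + e)) - (1 - t - a) * (e + t) := by
      have hu : 0 ≤ (1 - t - a) - 64 / 100 := by linarith
      have hv : 0 ≤ (92 / 100 - 8 / 100 * e - t) - 69 / 100 := by linarith
      have e9 : 92 / 100 * ((1 - t - b) * (1 + e)) - (1 - t - a) * (e + t) =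
          ((1 - t - a) - 64 / 100) * ((92 / 100 - 8 / 100 * e - t) - 69 / 100) +
          69 / 100 * (1 - t - a) + 64 / 100 * (92 / 100 - 8 / 100 * e - t) - 64 / 100 * (69 / 100) -
          46 / 1000 * (1 + e) := by rw [hb]; ring
      rw [e9]
      have hw := mul_nonneg hu hv
      linarith
    linarith
  -- the big atoms
  set pp := ∑ i, bw k p x i with hpp
  set BX := ∑ i, bw k p x i * x i with hBX
  have hmsBX : ms + BX = r := by
    rw [hms, hBX, ← sum_add_distrib, ← hOpt.m]
    unfold mu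
    refine sum_congr rfl fun i _ => ?_
    rw [← w1_sb k p x i]; ring
  have pp0 : 0 ≤ pp := sum_nonneg fun i _ => bw0 i
  have hBX0 : 0 < BX := by linarith
  have hppos : 0 < pp := by
    rcases eq_or_lt_of_le pp0 with h | h
    · exfalso
      have h1 : ∀ i ∈ (univ : Finset ι), bw k p x i = 0 :=
        (sum_eq_zero_iff_of_nonneg fun i _ => bw0 i).1 (by rw [← hpp]; exact h.symm)
      have : BX = 0 := by
        rw [hBX]
        exact sum_eq_zero fun i hi => by rw [h1 i hi, zero_mul]
      linarith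
    · exact h
  have hb2 : k * pp ≤ r := hOpt.b2
  set W := PR p x k k with hW
  set w1 := PR p x (k - 1) k with hw1
  set dl := 1 - t - BX / (k * pp) with hdl
  have hkpp : 0 < k * pp := mul_pos hk0 hppos
  have hBXe : BX = k * pp * (1 - t - dl) := by
    rw [hdl]; field_simp; ring
  have hBXl : BX ≤ l * pp := by
    rw [hBX, hpp, mul_sum]
    refine sum_le_sum fun i _ => ?_
    rw [mul_comm]
    exact mul_le_mul_of_nonneg_right (hxl i) (bw0 i)
  have dl0 : 0 ≤ dl := by
    have h1 : BX / (k * pp) ≤ 1 - t := by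
      rw [div_le_iff₀ hkpp]
      calc BX ≤ l * pp := hBXl
        _ = (1 - t) * (k * pp) := by rw [hlt]; ring
    rw [hdl]; linarith
  obtain ⟨hd1, hd2, hd3, hd4⟩ := hDEC ι p x k (by omega) law
  set A := EE (sw k p x) x k (fun s => if (k : ℝ) ≤ s then 1 else 0) with hA
  have hkk : ∀ j, PR p x (k - 1) (k - x j) = w1 * (1 - x j / l) := hOpt.kk.2
  have h1t : (1 - t) ≠ 0 := by linarith
  have hWe : W = (1 - pp) ^ k - A + k * pp * w1 * dl / (1 - t) := by
    rw [hW, hd2, w1_split hEEL, hd3 k, ← hpp, ← hA]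
    have h1 : k * ∑ j, bw k p x j * PR p x (k - 1) (k - x j) =
        k * pp * w1 * dl / (1 - t) := by
      have h2 : ∑ j, bw k p x j * PR p x (k - 1) (k - x j) = w1 * (pp - BX / l) := by
        rw [hpp, hBX, sum_div, ← sum_sub_distrib, mul_sum]
        refine sum_congr rfl fun j _ => ?_
        rw [hkk j]; ring
      have h3 : pp - BX / l = pp * dl / (1 - t) := by
        rw [hBXe, hlt]
        field_simp
        ring
      rw [h2, h3]; ring
    rw [h1]
  have A0 : 0 ≤ A := by
    have h1 := (hEEL ι (sw k p x) x k).2.2.2.1 sw0 x0 (fun _ => (0 : ℝ))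
      (fun s => if (k : ℝ) ≤ s then 1 else 0) (fun s _ => by split_ifs <;> norm_num)
    have h2 := (hEEL ι (sw k p x) x k).2.2.1 0 (fun _ => (0 : ℝ))
    simp only [zero_mul] at h2
    rw [h2] at h1
    exact h1
  have pp1' : pp ≤ 1 := by
    have h1 : (1 : ℝ) * pp ≤ k * pp := mul_le_mul_of_nonneg_right (by linarith) pp0
    linarith
  have A1 : A ≤ 1 := by
    have h1 := (hEEL ι (sw k p x) x k).2.2.2.1 sw0 x0
      (fun s => if (k : ℝ) ≤ s then 1 else 0) (fun _ => (1 : ℝ))
      (fun s _ => by split_ifs <;> norm_num)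
    rw [hd3 k, ← hpp, ← hA] at h1
    exact h1.trans (pow_le_one₀ (by linarith) (by linarith))
  have hsw1 : ∑ i, sw k p x i ≤ 1 := by
    rw [← law.sum]
    refine sum_le_sum fun i _ => ?_
    rw [← w1_sb k p x i]
    linarith [bw0 i]
  have hswd : ∀ i, sw k p x i ≠ 0 → x i ≤ b * k := by
    intro i hi
    rcases hgap i with h | h
    · exact h
    · exfalso; apply hi
      unfold sw
      rw [if_neg (not_le.mpr h)]
  obtain ⟨hs1, hs2⟩ := hSMA ι (sw k p x) x k (b * k) (by omega) sw0 hsw1 x0 hswd (by positivity)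
    (by nlinarith)
  have hbk : b * k / k = b := by field_simp
  rw [← hA, hbk] at hs2
  rw [← hA, ← hms] at hs1
  rw [← hms] at hs2
  -- the largest big atom
  obtain ⟨j, hj, hjmax⟩ : ∃ j, bw k p x j ≠ 0 ∧ ∀ i, bw k p x i ≠ 0 → x i ≤ x j := by
    classical
    have hne : (univ.filter fun i => bw k p x i ≠ 0).Nonempty := by
      by_contra h
      rw [not_nonempty_iff_eq_empty, filter_eq_empty_iff] at h
      have : pp = 0 := by
        rw [hpp]
        exact sum_eq_zero fun i hi => by
          have := h hi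
          push Not at this
          exact this
      linarith
    obtain ⟨j, hj, hm⟩ := exists_max_image _ x hne
    exact ⟨j, (mem_filter.1 hj).2, fun i hi => hm i (mem_filter.2 ⟨mem_univ _, hi⟩)⟩
  have hjk : (k : ℝ) / 2 < x j := by
    by_contra h
    apply hj
    unfold bw
    rw [if_neg h]
  set s := 1 - x j / k with hs
  have hxs : k - x j = s * k := by rw [hs]; field_simp
  have hst : t ≤ s := by
    rw [ht, hs]
    have := div_le_div_of_nonneg_right (hxl j) hk0.le
    linarith
  have hsd : s ≤ t + dl := by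
    have h1 : BX ≤ x j * pp := by
      rw [hBX, hpp, mul_sum]
      refine sum_le_sum fun i _ => ?_
      rw [mul_comm]
      by_cases h : bw k p x i = 0
      · rw [h]; simp
      · exact mul_le_mul_of_nonneg_right (hjmax i h) (bw0 i)
    have h2 : BX / (k * pp) ≤ x j / k := by
      rw [div_le_div_iff₀ hkpp hk0]
      calc BX * k ≤ x j * pp * k := mul_le_mul_of_nonneg_right h1 hk0.le
        _ = x j * (k * pp) := by ring
    rw [hs, hdl]; linarith
  have hs12 : s ≤ 1 / 2 := by
    have : (1 : ℝ) / 2 ≤ x j / k := by rw [le_div_iff₀ hk0]; linarith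
    rw [hs]; linarith
  have hPRs : PR (sw k p x) x (k - 1) (s * k) = w1 * (s - t) / (1 - t) := by
    rw [hd1 (k - 1) (s * k) (by rw [← hxs]; linarith), ← hxs, hkk j]
    have h1 : x j / l = (1 - s) / (1 - t) := by
      have h5 : x j = (1 - s) * k := by rw [sub_mul, ← hxs]; ring
      rw [h5, hlt]
      field_simp
    rw [h1]
    field_simp
    ring
  have hmain : (s * (1 - pp) ^ (k - 1) - (1 - 1 / k) * ms * (1 - pp) ^ (k - 2)) * ms * (1 - t) +
      (1 - b - s) * A * (1 - t) ≤ s * w1 * (s - t) * ms := by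
    have h1 := w1_int hEEL (sw k p x) x (k - 1) (s * k) ((1 - b) * k) sw0 x0
      (mul_nonneg (by linarith) hk0.le) (mul_le_mul_of_nonneg_right (by linarith) hk0.le)
    rw [hPRs, hd3 (k - 1), ← hpp] at h1
    have h2 := hd4 (k - 2)
    have hk2 : k - 2 + 1 = k - 1 := by omega
    rw [hk2, ← hms, ← hpp] at h2
    rw [h2] at h1
    have hk2' : ((k - 2 : ℕ) : ℝ) + 1 = k - 1 := by
      rw [Nat.cast_sub (by omega)]; push_cast; ring
    rw [hk2'] at h1
    have h3 : (k : ℝ) - b * k = (1 - b) * k := by ring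
    rw [h3] at hs1
    set A' := EE (sw k p x) x (k - 1) (fun s => if (1 - b) * (k : ℝ) ≤ s then 1 else 0) with hA'
    have h5 : (1 - b - s) * A ≤ (1 - b - s) * (ms * A') :=
      mul_le_mul_of_nonneg_left hs1 (by linarith)
    have h6 : k * (s * (1 - pp) ^ (k - 1) - (1 - 1 / k) * ms * (1 - pp) ^ (k - 2) +
        (1 - b - s) * A') ≤ k * (s * (w1 * (s - t) / (1 - t))) := by
      have h7 : (k : ℝ) * (1 - 1 / k) = k - 1 := by field_simp
      calc (k : ℝ) * (s * (1 - pp) ^ (k - 1) - (1 - 1 / k) * ms * (1 - pp) ^ (k - 2) +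
          (1 - b - s) * A')
          = s * k * (1 - pp) ^ (k - 1) - (k * (1 - 1 / k)) * ms * (1 - pp) ^ (k - 2) +
          ((1 - b) * k - s * k) * A' := by ring
        _ = s * k * (1 - pp) ^ (k - 1) - (k - 1) * ms * (1 - pp) ^ (k - 2) +
          ((1 - b) * k - s * k) * A' := by rw [h7]
        _ ≤ s * k * (w1 * (s - t) / (1 - t)) := h1
        _ = _ := by ring
    have h8 := le_of_mul_le_mul_left h6 hk0
    have h9 : 0 ≤ ms * (1 - t) := mul_nonneg ms0 (by linarith)
    have h10 := mul_le_mul_of_nonneg_left h8 h9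
    have h11 : ms * (1 - t) * (s * (w1 * (s - t) / (1 - t))) = s * w1 * (s - t) * ms := by
      field_simp
    rw [h11] at h10
    refine le_trans ?_ h10
    have h12 := mul_le_mul_of_nonneg_right h5 (by linarith : (0 : ℝ) ≤ 1 - t)
    linarith
  refine ⟨pp, A, dl, ms, s, ⟨pp0, hb2, dl0, ?_, A0, A1, ?_, ?_, hms1, hs2, hst, hsd, hmain⟩⟩
  · have h1 : 0 ≤ BX / (k * pp) := div_nonneg hBX0.le hkpp.le
    rw [hdl]; linarith
  · rw [hWe]
    field_simp
  · rw [← hBXe]; linarith

end Pool.Agent.Q275.XU
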